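import Pool.Agent.Helper40.WD.Stmts

/-!
# Sheet WD, row EE: Davie's vectors exist
-/

set_option autoImplicit false

namespace Pool.Agent.Helper12.WD

open Filter Topology
open Pool.Agent.Helper40.WD

/-- functions on the levels -/
abbrev FL := ∀ l : ℕ, Fin (4 * mm l) → ℝ

/-- change the function on the level `k` -/
noncomputable def upd (f : FL) (k : ℕ) (a : Fin (4 * mm k) → ℝ) : FL := Function.update f k a

lemma upd_self (f : FL) (k : ℕ) (a : Fin (4 * mm k) → ℝ) : upd f k a k = a :=
  Function.update_self _ _ _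

lemma upd_ne (f : FL) (k : ℕ) (a : Fin (4 * mm k) → ℝ) (l : ℕ) (h : l ≠ k) :
    upd f k a l = f l :=
  Function.update_of_ne h _ _

/-- the zero function -/
def zf : FL := fun _ _ => 0

/-- the values of the vectors -/
noncomputable def raw (D : Dav) : ∀ k : ℕ, Fin (mm k) → FL
  | 0, j => upd zf 0 (D.S 0 j)
  | k + 1, j => upd (upd zf k (D.T k j)) (k + 1) (D.S (k + 1) j)

lemma raw_same (D : Dav) (k : ℕ) (j : Fin (mm k)) : raw D k j k = D.S k j := by
  cases k with
  | zero => exact upd_self _ _ _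
  | succ k => exact upd_self _ _ _

lemma raw_prev (D : Dav) (k : ℕ) (j : Fin (mm (k + 1))) : raw D (k + 1) j k = D.T k j := by
  have h : k ≠ k + 1 := by omega
  show upd (upd zf k (D.T k j)) (k + 1) (D.S (k + 1) j) k = _
  rw [upd_ne _ _ _ _ h, upd_self]

lemma raw_zero (D : Dav) (k : ℕ) (j : Fin (mm k)) (l : ℕ) (h1 : l ≠ k) (h2 : l + 1 ≠ k) :
    raw D k j l = fun _ => 0 := by
  cases k with
  | zero =>
    show upd zf 0 (D.S 0 j) l = _
    rw [upd_ne _ _ _ _ h1]
    rfl
  | succ k =>
    show upd (upd zf k (D.T k j)) (k + 1) (D.S (k + 1) j) l = _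
    rw [upd_ne _ _ _ _ h1, upd_ne _ _ _ _ (by omega)]
    rfl

lemma raw_le (D : Dav) (k : ℕ) (j : Fin (mm k)) (l : ℕ) (g : Fin (4 * mm l)) :
    |raw D k j l g| ≤ 4 := by
  by_cases h1 : l = k
  · subst h1
    rw [raw_same]
    exact D.S_le _ _ _
  · by_cases h2 : l + 1 = k
    · subst h2
      rw [raw_prev]
      exact D.T_le _ _ _
    · rw [raw_zero D k j l h1 h2]
      norm_num

lemma raw_loc (D : Dav) (k : ℕ) (j : Fin (mm k)) (l : ℕ) (i : Fin (mm (l + 1))) :
    3 * ∑ g, D.T l i g * raw D k j l g = ∑ g, D.S (l + 1) i g * raw D k j (l + 1) g := by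
  by_cases h1 : l = k
  · subst h1
    rw [raw_same, raw_zero D l j (l + 1) (by omega) (by omega)]
    have h3 : ∑ g, D.T l i g * D.S l j g = 0 := by
      rw [← D.ST l j i]
      exact Finset.sum_congr rfl fun g _ => mul_comm _ _
    rw [h3]
    simp
  · by_cases h2 : l + 1 = k
    · subst h2
      rw [raw_prev, raw_same, D.TT, D.SS]
      by_cases h : i = j
      · rw [if_pos h, if_pos h]
        have h3 : (mm (l + 1) : ℝ) = 3 * mm l := by
          have : mm (l + 1) = 3 * mm l := rfl
          rw [this]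
          push_cast
          ring
        rw [h3]
        ring
      · rw [if_neg h, if_neg h, mul_zero]
    · rw [raw_zero D k j l h1 h2]
      by_cases h3 : l + 1 + 1 = k
      · subst h3
        rw [raw_prev, D.ST]
        simp
      · rw [raw_zero D k j (l + 1) h2 h3]
        simp

theorem st_EE : ST_EE := by
  intro D
  have hm : ∀ (k : ℕ) (j : Fin (mm k)),
      Memℓp (fun p : Gi => raw D k j p.1 p.2) (⊤ : ENNReal) := by
    intro k j
    refine memℓp_infty ⟨4, ?_⟩
    rintro x ⟨p, rfl⟩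
    exact raw_le D k j p.1 p.2
  refine ⟨⟨fun k j => ⟨⟨fun p : Gi => raw D k j p.1 p.2, hm k j⟩, ?_⟩, ?_, ?_, ?_⟩⟩
  · intro l i
    exact raw_loc D k j l i
  · intro k j g
    show raw D k j k g = _
    rw [raw_same]
  · intro k j g
    show raw D (k + 1) j k g = _
    rw [raw_prev]
  · intro k j l g h1 h2
    show raw D k j l g = _
    rw [raw_zero D k j l h1 h2]

end Pool.Agent.Helper12.WD
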